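import Pool.Agent.Work.MP_2738db_nt_C.Interface

/-! Block PSV (helper35) of the coprime exponents theorem (MP_2738db). -/

set_option autoImplicit false

namespace Pool.Agent.Work.MP_2738db_nt_C.helper35

open Finset Filter
open Pool.Agent.Work.MP_2738db_nt_C

/-- the size conditions on `L = log N` -/
theorem ev_cond (C : ℝ) (hC : 1 ≤ C) : ∀ᶠ L : ℝ in atTop, 3 ≤ L ∧ 2 ≤ L ^ (29/30 : ℝ) ∧
    L ^ (29/30 : ℝ) ≤ L / 2 ∧
    C * (1 + Real.log (1 + L ^ (29/30 : ℝ))) * L ^ (29/30 : ℝ) ≤ L / 4 := by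
  have h1 : ∀ᶠ L : ℝ in atTop, 2 ≤ L ^ (29/30 : ℝ) :=
    (tendsto_rpow_atTop (by norm_num : (0:ℝ) < 29/30)).eventually_ge_atTop 2
  have h2 : ∀ᶠ L : ℝ in atTop, 8 * C ≤ L ^ (1/30 : ℝ) :=
    (tendsto_rpow_atTop (by norm_num : (0:ℝ) < 1/30)).eventually_ge_atTop _
  have h3 : ∀ᶠ L : ℝ in atTop, ‖Real.log L‖ ≤ (1 / (16 * C)) * ‖L ^ (1/30 : ℝ)‖ :=
    (isLittleO_log_rpow_atTop (by norm_num : (0:ℝ) < 1/30)).bound (by positivity)
  filter_upwards [h1, h2, h3, eventually_ge_atTop (3:ℝ)] with L g1 g2 g3 g4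
  have hL0 : (0:ℝ) < L := by linarith
  have hL1 : (1:ℝ) ≤ L := by linarith
  have hmul : L ^ (1/30 : ℝ) * L ^ (29/30 : ℝ) = L := by
    rw [← Real.rpow_add hL0]; norm_num
  have hp1 : 0 < L ^ (1/30 : ℝ) := Real.rpow_pos_of_pos hL0 _
  have hp2 : 0 < L ^ (29/30 : ℝ) := Real.rpow_pos_of_pos hL0 _
  have hlog0 : 0 ≤ Real.log L := Real.log_nonneg hL1
  rw [Real.norm_of_nonneg hlog0, Real.norm_of_nonneg hp1.le] at g3
  refine ⟨g4, g1, ?_, ?_⟩
  · have : 2 * L ^ (29/30 : ℝ) ≤ L := by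
      calc 2 * L ^ (29/30 : ℝ) ≤ L ^ (1/30 : ℝ) * L ^ (29/30 : ℝ) := by
            apply mul_le_mul_of_nonneg_right _ hp2.le
            linarith
        _ = L := hmul
    linarith
  · have hle : L ^ (29/30 : ℝ) ≤ L := by
      calc L ^ (29/30 : ℝ) ≤ L ^ (1 : ℝ) := Real.rpow_le_rpow_of_exponent_le hL1 (by norm_num)
        _ = L := Real.rpow_one L
    have hlog : Real.log (1 + L ^ (29/30 : ℝ)) ≤ 2 * Real.log L := by
      have e1 : 2 * Real.log L = Real.log (L ^ 2) := by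
        rw [Real.log_pow]; norm_num
      rw [e1]
      apply Real.log_le_log (by positivity)
      nlinarith
    have hC0 : 0 < C := by linarith
    have g3' : C * (2 * Real.log L) ≤ L ^ (1/30 : ℝ) / 8 := by
      have : C * (2 * Real.log L) ≤ C * (2 * (1 / (16 * C) * L ^ (1/30 : ℝ))) := by gcongr
      refine this.trans (le_of_eq ?_)
      field_simp
      ring
    have key : C * (1 + Real.log (1 + L ^ (29/30 : ℝ))) ≤ L ^ (1/30 : ℝ) / 4 := by
      have : C * Real.log (1 + L ^ (29/30 : ℝ)) ≤ C * (2 * Real.log L) := by gcongr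
      nlinarith
    calc C * (1 + Real.log (1 + L ^ (29/30 : ℝ))) * L ^ (29/30 : ℝ)
        ≤ (L ^ (1/30 : ℝ) / 4) * L ^ (29/30 : ℝ) :=
          mul_le_mul_of_nonneg_right key hp2.le
      _ = L / 4 := by rw [div_mul_eq_mul_div, hmul]

theorem log_three_half : Real.log (3/2) ≤ 42/100 := by
  rw [Real.log_le_iff_le_exp (by norm_num)]
  refine le_trans ?_ (Real.quadratic_le_exp_of_nonneg (by norm_num : (0:ℝ) ≤ 42/100))
  norm_num

theorem om_add_le (z u v : ℕ) (h : Nat.Coprime u v) : om z u + om z v ≤ om z (u * v) := by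
  unfold om
  rw [← Finset.card_union_of_disjoint]
  · apply Finset.card_le_card
    intro p hp
    simp only [Finset.mem_union, Finset.mem_filter] at hp ⊢
    rcases hp with ⟨h1, h2, h3⟩ | ⟨h1, h2, h3⟩
    · exact ⟨h1, h2, Dvd.dvd.mul_right h3 v⟩
    · exact ⟨h1, h2, Dvd.dvd.mul_left h3 u⟩
  · rw [Finset.disjoint_left]
    intro p hp hp'
    simp only [Finset.mem_filter] at hp hp'
    exact Nat.Prime.one_lt hp.2.1 |>.ne' (Nat.eq_one_of_dvd_coprimes h hp.2.2 hp'.2.2)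

/-- the weighted count of the second factors -/
theorem inner_bound {C : ℝ} {z N u : ℕ} (L : ℝ)
    (hBrs : ∀ (X z u : ℕ) (e : ℤ) (S : Finset ℕ), (e = 1 ∨ e = -1) → 3 ≤ z → 1 ≤ u →
    C * (1 + Real.log (1 + Real.log z)) * Real.log z ≤ Real.log X →
    (∀ n ∈ S, 1 ≤ n ∧ n ≤ X ∧ ∀ p : ℕ, p.Prime → p ≤ z → ¬ p ∣ 2 * u →
      ¬ (p : ℤ) ∣ (n : ℤ) + e * u) →
    ∑ n ∈ S, (2 / 3 : ℝ) ^ om z n ≤
      C * X / Real.log z ^ (4 / 3 : ℝ) * ((u : ℝ) / u.totient) ^ 2)
    (hz : 3 ≤ z) (hu : 1 ≤ u) (hC : 0 ≤ C)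
    (hX : C * (1 + Real.log (1 + Real.log z)) * Real.log z ≤ Real.log ((N / u : ℕ) : ℝ))
    (hzL : z = ⌊Real.exp L⌋₊)
    (G : Finset ℕ)
    (hG : ∀ v ∈ G, 1 ≤ v ∧ v ≤ N / u ∧ ∃ w : ℕ, (v + u = 2 * w ∨ v = u + 2 * w) ∧
      ∀ p : ℕ, p.Prime → (p : ℝ) ≤ Real.exp L → ¬ p ∣ w) :
    ∑ v ∈ G, (2 / 3 : ℝ) ^ om z v ≤
      2 * C * N / Real.log z ^ (4 / 3 : ℝ) * (((u : ℝ) / u.totient) ^ 2 / u) := by
  classical
  have hple : ∀ p : ℕ, p ≤ z → (p : ℝ) ≤ Real.exp L := by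
    intro p hp
    rw [hzL] at hp
    exact (Nat.le_floor_iff (Real.exp_pos _).le).mp hp
  set Gp := G.filter (fun v => ∃ w : ℕ, v + u = 2 * w ∧
      ∀ p : ℕ, p.Prime → (p : ℝ) ≤ Real.exp L → ¬ p ∣ w) with hGp
  set Gm := G.filter (fun v => ∃ w : ℕ, v = u + 2 * w ∧
      ∀ p : ℕ, p.Prime → (p : ℝ) ≤ Real.exp L → ¬ p ∣ w) with hGm
  have hsub : G ⊆ Gp ∪ Gm := by
    intro v hv
    obtain ⟨-, -, w, hw, hw'⟩ := hG v hv
    rw [Finset.mem_union, hGp, hGm, Finset.mem_filter, Finset.mem_filter]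
    rcases hw with hw | hw
    · exact Or.inl ⟨hv, w, hw, hw'⟩
    · exact Or.inr ⟨hv, w, hw, hw'⟩
  have h2p : ∀ p : ℕ, p.Prime → ¬ p ∣ 2 * u → ¬ p ∣ 2 := fun p _ h h' =>
    h (Dvd.dvd.mul_right h' u)
  have hp1 := hBrs (N / u) z u 1 Gp (Or.inl rfl) hz hu hX (by
    intro n hn
    rw [hGp, Finset.mem_filter] at hn
    obtain ⟨h1, h2, -⟩ := hG n hn.1
    refine ⟨h1, h2, ?_⟩
    intro p hp hpz hpu hdvd
    obtain ⟨w, hw, hw'⟩ := hn.2
    have e : (n : ℤ) + 1 * u = ((2 * w : ℕ) : ℤ) := by rw [← hw]; push_cast; ring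
    rw [e] at hdvd
    have hd : p ∣ 2 * w := by exact_mod_cast hdvd
    rcases (Nat.Prime.dvd_mul hp).mp hd with h | h
    · exact h2p p hp hpu h
    · exact hw' p hp (hple p hpz) h)
  have hm1 := hBrs (N / u) z u (-1) Gm (Or.inr rfl) hz hu hX (by
    intro n hn
    rw [hGm, Finset.mem_filter] at hn
    obtain ⟨h1, h2, -⟩ := hG n hn.1
    refine ⟨h1, h2, ?_⟩
    intro p hp hpz hpu hdvd
    obtain ⟨w, hw, hw'⟩ := hn.2
    have e : (n : ℤ) + (-1) * u = ((2 * w : ℕ) : ℤ) := by rw [hw]; push_cast; ring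
    rw [e] at hdvd
    have hd : p ∣ 2 * w := by exact_mod_cast hdvd
    rcases (Nat.Prime.dvd_mul hp).mp hd with h | h
    · exact h2p p hp hpu h
    · exact hw' p hp (hple p hpz) h)
  have hXle : (((N / u : ℕ) : ℕ) : ℝ) ≤ (N : ℝ) / u := Nat.cast_div_le
  have hlz : 0 < Real.log z := Real.log_pos (by
    have : (3:ℝ) ≤ z := by exact_mod_cast hz
    linarith)
  have hlz' : 0 < Real.log z ^ (4 / 3 : ℝ) := Real.rpow_pos_of_pos hlz _
  have hu0 : (0:ℝ) < u := by exact_mod_cast hu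
  calc ∑ v ∈ G, (2 / 3 : ℝ) ^ om z v ≤ ∑ v ∈ Gp ∪ Gm, (2 / 3 : ℝ) ^ om z v :=
        Finset.sum_le_sum_of_subset_of_nonneg hsub (fun _ _ _ => by positivity)
    _ ≤ ∑ v ∈ Gp, (2 / 3 : ℝ) ^ om z v + ∑ v ∈ Gm, (2 / 3 : ℝ) ^ om z v := by
        rw [← Finset.sum_union_inter]
        exact le_add_of_nonneg_right (Finset.sum_nonneg fun _ _ => by positivity)
    _ ≤ C * ((N / u : ℕ) : ℝ) / Real.log z ^ (4 / 3 : ℝ) * ((u : ℝ) / u.totient) ^ 2 +
        C * ((N / u : ℕ) : ℝ) / Real.log z ^ (4 / 3 : ℝ) * ((u : ℝ) / u.totient) ^ 2 :=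
        add_le_add hp1 hm1
    _ = 2 * (C * ((N / u : ℕ) : ℝ) / Real.log z ^ (4 / 3 : ℝ) * ((u : ℝ) / u.totient) ^ 2) := by
        ring
    _ ≤ 2 * (C * ((N : ℝ) / u) / Real.log z ^ (4 / 3 : ℝ) * ((u : ℝ) / u.totient) ^ 2) := by
        gcongr
    _ = 2 * C * N / Real.log z ^ (4 / 3 : ℝ) * (((u : ℝ) / u.totient) ^ 2 / u) := by
        field_simp

theorem psv (hB : Stmt_Brs) (h3 : Stmt_P3) (h4 : Stmt_P4) : Stmt_Psv := by
  classical
  obtain ⟨CB, hCB, hBrs⟩ := hB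
  obtain ⟨C3, hC3, hP3⟩ := h3
  obtain ⟨C4, hC4, hP4⟩ := h4
  have hlogt : Tendsto (fun N : ℕ => Real.log (N : ℝ)) atTop atTop :=
    Real.tendsto_log_atTop.comp tendsto_natCast_atTop_atTop
  obtain ⟨N₀, hN₀⟩ := Filter.eventually_atTop.mp (hlogt.eventually (ev_cond CB hCB))
  set Cbig : ℝ := C4 + 8 * CB * C3 with hCbig
  refine ⟨Cbig + (1 + |Real.log N₀|) ^ (1/20 : ℝ), 1/20, by norm_num, ?_⟩
  intro N hN
  set Sset : Set ℕ := {c : ℕ | 1 ≤ c ∧ c ≤ N ∧ ¬ 2 ∣ c ∧ ∃ u v w : ℕ, c = u * v ∧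
      Nat.Coprime u v ∧ u < v ∧ (v + u = 2 * w ∨ v = u + 2 * w) ∧
      ∀ p : ℕ, p.Prime → (p : ℝ) ≤ Real.exp (Real.log N ^ (1 - 1 / 30 : ℝ)) → ¬ p ∣ w} with hS
  have hSsub : Sset ⊆ ((Finset.Icc 1 N : Finset ℕ) : Set ℕ) := by
    intro c hc
    simp only [Finset.coe_Icc, Set.mem_Icc]
    exact ⟨hc.1, hc.2.1⟩
  have hScard : (Sset.ncard : ℝ) ≤ N := by
    have := Set.ncard_le_ncard hSsub (Finset.finite_toSet _)
    rw [Set.ncard_coe_finset] at this
    simp only [Nat.card_Icc, Nat.add_sub_cancel] at this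
    exact_mod_cast this
  have hNR : (2:ℝ) ≤ N := by exact_mod_cast hN
  have hLpos : 0 < Real.log N := Real.log_pos (by linarith)
  have hLd : 0 < Real.log N ^ (1/20 : ℝ) := Real.rpow_pos_of_pos hLpos _
  have hCb0 : 0 ≤ Cbig := by positivity
  rcases lt_or_ge N N₀ with hlt | hge
  · -- small N
    have h1 : Real.log N ^ (1/20 : ℝ) ≤ (1 + |Real.log N₀|) ^ (1/20 : ℝ) := by
      apply Real.rpow_le_rpow hLpos.le _ (by norm_num)
      have h2 : Real.log N ≤ Real.log N₀ := by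
        apply Real.log_le_log (by linarith)
        exact_mod_cast hlt.le
      have := le_abs_self (Real.log N₀)
      linarith
    refine hScard.trans ?_
    rw [le_div_iff₀ hLd]
    have hN0 : (0:ℝ) ≤ N := by linarith
    calc (N:ℝ) * Real.log N ^ (1/20 : ℝ) ≤ N * (1 + |Real.log N₀|) ^ (1/20 : ℝ) := by gcongr
      _ ≤ (Cbig + (1 + |Real.log N₀|) ^ (1/20 : ℝ)) * N := by nlinarith
  · obtain ⟨g1, g2, g3, g4⟩ := hN₀ N hge
    set L := Real.log (N : ℝ) with hL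
    set Λ := L ^ (29/30 : ℝ) with hΛ
    have hexpo : L ^ (1 - 1/30 : ℝ) = Λ := by rw [hΛ]; norm_num
    set z : ℕ := ⌊Real.exp Λ⌋₊ with hz
    have hL0 : 0 < L := hLpos
    have hL1 : 1 ≤ L := by linarith
    have hexpz : Real.exp Λ < z + 1 := Nat.lt_floor_add_one _
    have hzexp : (z : ℝ) ≤ Real.exp Λ := Nat.floor_le (Real.exp_pos _).le
    have hexp2 : (7:ℝ) < Real.exp Λ := by
      have h1 : Real.exp 2 ≤ Real.exp Λ := Real.exp_le_exp.mpr g2
      have h2 : (7:ℝ) < Real.exp 2 := by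
        have h3 := Real.exp_one_gt_d9
        have h4 : Real.exp 2 = Real.exp 1 * Real.exp 1 := by rw [← Real.exp_add]; norm_num
        rw [h4]; nlinarith
      linarith
    have hz3 : 3 ≤ z := by
      have : (6:ℝ) < z := by linarith
      have h6 : 6 < z := by exact_mod_cast this
      omega
    have hz3' : (3:ℝ) ≤ z := by exact_mod_cast hz3
    have hlogz_le : Real.log z ≤ Λ := by
      rw [Real.log_le_iff_le_exp (by linarith)]; exact hzexp
    have hlogz_pos : 0 < Real.log z := Real.log_pos (by linarith)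
    have hlogz_ge : Λ / 2 ≤ Real.log z := by
      have h1 : Real.exp Λ / 2 ≤ z := by linarith
      have h2 : Real.log (Real.exp Λ / 2) ≤ Real.log z :=
        Real.log_le_log (by positivity) h1
      rw [Real.log_div (Real.exp_pos _).ne' (by norm_num), Real.log_exp] at h2
      have h3 : Real.log 2 ≤ 1 := by
        have := Real.log_two_lt_d9; linarith
      linarith
    have hN0 : (0:ℝ) < N := by linarith
    have hNexp : Real.exp L = N := Real.exp_log hN0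
    have hsqrt : z ≤ Nat.sqrt N := by
      rw [Nat.le_sqrt']
      have h1 : (z:ℝ) ^ 2 ≤ N := by
        calc (z:ℝ)^2 ≤ (Real.exp Λ)^2 := by gcongr
          _ = Real.exp (2 * Λ) := by rw [← Real.exp_nat_mul]; norm_num
          _ ≤ Real.exp L := Real.exp_le_exp.mpr (by linarith)
          _ = N := hNexp
      exact_mod_cast h1
    have hsq1 : 1 ≤ Nat.sqrt N := by omega
    have hzN : z ≤ N := hsqrt.trans (Nat.sqrt_le_self N)
    have hlogsqrt : L / 4 ≤ Real.log (Nat.sqrt N : ℝ) := by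
      have h1 : (N:ℝ) ≤ 4 * (Nat.sqrt N : ℝ)^2 := by
        have h2 : N < (Nat.sqrt N + 1)^2 := Nat.lt_succ_sqrt' N
        have h3 : (N:ℝ) < ((Nat.sqrt N : ℝ) + 1)^2 := by exact_mod_cast h2
        have h4 : (1:ℝ) ≤ (Nat.sqrt N : ℝ) := by exact_mod_cast hsq1
        nlinarith
      have h5 : (0:ℝ) < (Nat.sqrt N : ℝ) := by exact_mod_cast hsq1
      have h6 : L ≤ Real.log (4 * (Nat.sqrt N : ℝ)^2) := Real.log_le_log hN0 h1
      rw [Real.log_mul (by norm_num) (by positivity), Real.log_pow] at h6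
      have h7 : Real.log 4 = 2 * Real.log 2 := by
        rw [show (4:ℝ) = 2^2 by norm_num, Real.log_pow]; norm_num
      have h8 := Real.log_two_lt_d9
      push_cast at h6
      linarith
    -- the condition of BRS
    have hcond : ∀ u : ℕ, 1 ≤ u → u ≤ Nat.sqrt N →
        CB * (1 + Real.log (1 + Real.log z)) * Real.log z ≤ Real.log ((N / u : ℕ) : ℝ) := by
      intro u hu1 hu2
      have h1 : Nat.sqrt N ≤ N / u := by
        rw [Nat.le_div_iff_mul_le hu1]
        calc Nat.sqrt N * u ≤ Nat.sqrt N * Nat.sqrt N := Nat.mul_le_mul_left _ hu2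
          _ ≤ N := Nat.sqrt_le N
      have h2 : Real.log (Nat.sqrt N : ℝ) ≤ Real.log ((N / u : ℕ) : ℝ) := by
        apply Real.log_le_log (by exact_mod_cast hsq1)
        exact_mod_cast h1
      have h3 : Real.log (1 + Real.log z) ≤ Real.log (1 + Λ) :=
        Real.log_le_log (by linarith) (by linarith)
      have h4 : 0 ≤ Real.log (1 + Real.log z) := Real.log_nonneg (by linarith)
      have h5 : 0 ≤ CB * (1 + Real.log (1 + Λ)) :=
        mul_nonneg (by linarith) (by linarith)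
      calc CB * (1 + Real.log (1 + Real.log z)) * Real.log z
          ≤ CB * (1 + Real.log (1 + Λ)) * Λ := by gcongr
        _ ≤ L / 4 := g4
        _ ≤ Real.log (Nat.sqrt N : ℝ) := hlogsqrt
        _ ≤ _ := h2
    -- the two parts
    set t : ℝ := 4 / 3 * Real.log L with ht
    set A : Set ℕ := {c : ℕ | 1 ≤ c ∧ c ≤ N ∧ t < (om z c : ℝ)} with hA
    have hAfin : A.Finite := (Finset.finite_toSet (Finset.Icc 1 N)).subset (by
      intro c hc
      simp only [Finset.coe_Icc, Set.mem_Icc]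
      exact ⟨hc.1, hc.2.1⟩)
    have hAcard : (A.ncard : ℝ) ≤ C4 * N / L ^ (1/20 : ℝ) := hP4 N z (by omega) (by omega) hzN
    set Gd : ℕ → Finset ℕ := fun u => (Finset.Icc 1 (N / u)).filter (fun v =>
      Nat.Coprime u v ∧ (om z (u * v) : ℝ) ≤ t ∧ ∃ w : ℕ, (v + u = 2 * w ∨ v = u + 2 * w) ∧
      ∀ p : ℕ, p.Prime → (p : ℝ) ≤ Real.exp Λ → ¬ p ∣ w) with hGd
    set P : Finset (Σ _ : ℕ, ℕ) := (Finset.Icc 1 (Nat.sqrt N)).sigma Gd with hP
    set B : Finset ℕ := P.image (fun x => x.1 * x.2) with hBdef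
    have hcover : Sset ⊆ A ∪ (B : Set ℕ) := by
      intro c hc
      by_cases hct : t < (om z c : ℝ)
      · exact Or.inl ⟨hc.1, hc.2.1, hct⟩
      · right
        obtain ⟨hc1, hcN, hc2, u, v, w, hcuv, hcop, huv, hw, hw'⟩ := hc
        rw [hexpo] at hw'
        have hu1 : 1 ≤ u := by
          rcases Nat.eq_zero_or_pos u with h | h
          · rw [h] at hcuv; omega
          · exact h
        have hv1 : 1 ≤ v := by omega
        have hus : u ≤ Nat.sqrt N := by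
          rw [Nat.le_sqrt]
          calc u * u ≤ u * v := Nat.mul_le_mul_left _ huv.le
            _ = c := hcuv.symm
            _ ≤ N := hcN
        have hvN : v ≤ N / u := by
          rw [Nat.le_div_iff_mul_le hu1, mul_comm, ← hcuv]; exact hcN
        rw [Finset.mem_coe, hBdef, Finset.mem_image]
        refine ⟨⟨u, v⟩, ?_, hcuv.symm⟩
        rw [hP, Finset.mem_sigma, hGd]
        refine ⟨Finset.mem_Icc.mpr ⟨hu1, hus⟩, ?_⟩
        rw [Finset.mem_filter]
        refine ⟨Finset.mem_Icc.mpr ⟨hv1, hvN⟩, hcop, ?_, w, hw, hw'⟩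
        show ((om z (u * v) : ℕ) : ℝ) ≤ t
        rw [← hcuv]
        exact not_lt.mp hct
    have hcard : (Sset.ncard : ℝ) ≤ A.ncard + P.card := by
      have h1 : Sset.ncard ≤ (A ∪ (B : Set ℕ)).ncard :=
        Set.ncard_le_ncard hcover (hAfin.union (Finset.finite_toSet _))
      have h2 : (A ∪ (B : Set ℕ)).ncard ≤ A.ncard + (B : Set ℕ).ncard := Set.ncard_union_le _ _
      rw [Set.ncard_coe_finset] at h2
      have h3 : B.card ≤ P.card := Finset.card_image_le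
      have h4 : Sset.ncard ≤ A.ncard + P.card := by omega
      exact_mod_cast h4
    -- the count of the pairs
    set T : ℝ := (3/2 : ℝ) ^ t with hT
    have hT0 : 0 < T := Real.rpow_pos_of_pos (by norm_num) _
    have hone : ∀ u v : ℕ, Nat.Coprime u v → (om z (u * v) : ℝ) ≤ t →
        1 ≤ T * (2/3 : ℝ) ^ om z u * (2/3 : ℝ) ^ om z v := by
      intro u v h1 h2
      have h3 : om z u + om z v ≤ om z (u * v) := om_add_le z u v h1
      have h4 : ((om z u + om z v : ℕ) : ℝ) ≤ t := by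
        refine le_trans ?_ h2
        exact_mod_cast h3
      have h5 : (3/2 : ℝ) ^ (om z u + om z v) ≤ T := by
        rw [hT, ← Real.rpow_natCast]
        exact Real.rpow_le_rpow_of_exponent_le (by norm_num) h4
      have h6 : (2/3 : ℝ) ^ om z u * (2/3 : ℝ) ^ om z v = ((3/2 : ℝ) ^ (om z u + om z v))⁻¹ := by
        rw [← pow_add, ← inv_pow]; norm_num
      rw [mul_assoc, h6, ← div_eq_mul_inv, le_div_iff₀ (by positivity), one_mul]
      exact h5
    have hPcard : (P.card : ℝ) ≤ 2 * CB * C3 * T * N * L / Real.log z ^ (5/3 : ℝ) := by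
      rw [hP, Finset.card_sigma]
      push_cast
      have h1 : ∀ u ∈ Finset.Icc 1 (Nat.sqrt N), ((Gd u).card : ℝ) ≤
          T * (2 * CB * N / Real.log z ^ (4/3 : ℝ)) *
            ((2 / 3 : ℝ) ^ om z u * ((u : ℝ) / u.totient) ^ 2 / u) := by
        intro u hu
        rw [Finset.mem_Icc] at hu
        have h2 : ((Gd u).card : ℝ) = ∑ v ∈ Gd u, (1:ℝ) := by simp
        rw [h2]
        have h3 : ∑ v ∈ Gd u, (1:ℝ) ≤ ∑ v ∈ Gd u, T * (2/3 : ℝ) ^ om z u * (2/3 : ℝ) ^ om z v := by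
          apply Finset.sum_le_sum
          intro v hv
          rw [hGd, Finset.mem_filter] at hv
          exact hone u v hv.2.1 hv.2.2.1
        refine h3.trans ?_
        rw [← Finset.mul_sum]
        have h4 := inner_bound (C := CB) (z := z) (N := N) (u := u) Λ hBrs hz3 hu.1
          (by linarith) (hcond u hu.1 hu.2) hz (Gd u) (by
            intro v hv
            rw [hGd, Finset.mem_filter, Finset.mem_Icc] at hv
            exact ⟨hv.1.1, hv.1.2, hv.2.2.2⟩)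
        calc T * (2/3 : ℝ) ^ om z u * ∑ v ∈ Gd u, (2/3 : ℝ) ^ om z v
            ≤ T * (2/3 : ℝ) ^ om z u * (2 * CB * N / Real.log z ^ (4 / 3 : ℝ) *
              (((u : ℝ) / u.totient) ^ 2 / u)) := by gcongr
          _ = _ := by ring
      have h5 := hP3 (Nat.sqrt N) z (by omega) hsqrt
      have hlz43 : 0 < Real.log z ^ (4/3 : ℝ) := Real.rpow_pos_of_pos hlogz_pos _
      have hlz13 : 0 < Real.log z ^ (1/3 : ℝ) := Real.rpow_pos_of_pos hlogz_pos _
      have hlz53 : Real.log z ^ (5/3 : ℝ) = Real.log z ^ (4/3 : ℝ) * Real.log z ^ (1/3 : ℝ) := by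
        rw [← Real.rpow_add hlogz_pos]; norm_num
      calc ∑ u ∈ Finset.Icc 1 (Nat.sqrt N), ((Gd u).card : ℝ)
          ≤ ∑ u ∈ Finset.Icc 1 (Nat.sqrt N), T * (2 * CB * N / Real.log z ^ (4/3 : ℝ)) *
            ((2 / 3 : ℝ) ^ om z u * ((u : ℝ) / u.totient) ^ 2 / u) := Finset.sum_le_sum h1
        _ = T * (2 * CB * N / Real.log z ^ (4/3 : ℝ)) * ∑ u ∈ Finset.Icc 1 (Nat.sqrt N),
            ((2 / 3 : ℝ) ^ om z u * ((u : ℝ) / u.totient) ^ 2 / u) := by rw [Finset.mul_sum]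
        _ ≤ T * (2 * CB * N / Real.log z ^ (4/3 : ℝ)) *
            (C3 * Real.log (Nat.sqrt N) / Real.log z ^ (1/3 : ℝ)) := by gcongr
        _ ≤ T * (2 * CB * N / Real.log z ^ (4/3 : ℝ)) *
            (C3 * L / Real.log z ^ (1/3 : ℝ)) := by
            have : Real.log (Nat.sqrt N : ℝ) ≤ L := by
              apply Real.log_le_log (by exact_mod_cast hsq1)
              exact_mod_cast Nat.sqrt_le_self N
            gcongr
        _ = 2 * CB * C3 * T * N * L / Real.log z ^ (5/3 : ℝ) := by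
            rw [hlz53]; field_simp
    -- the exponents
    have hTle : T ≤ L ^ (56/100 : ℝ) := by
      have h1 : T = L ^ (4/3 * Real.log (3/2)) := by
        rw [hT, ht, Real.rpow_def_of_pos (by norm_num), Real.rpow_def_of_pos hL0]
        congr 1; ring
      rw [h1]
      apply Real.rpow_le_rpow_of_exponent_le hL1
      have := log_three_half
      linarith
    have hz53 : L ^ (29/18 : ℝ) / 4 ≤ Real.log z ^ (5/3 : ℝ) := by
      have h1 : (Λ / 2) ^ (5/3 : ℝ) ≤ Real.log z ^ (5/3 : ℝ) :=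
        Real.rpow_le_rpow (by positivity) hlogz_ge (by norm_num)
      refine le_trans ?_ h1
      rw [Real.div_rpow (by positivity) (by norm_num), hΛ, ← Real.rpow_mul hL0.le]
      have h2 : (2:ℝ) ^ (5/3 : ℝ) ≤ 4 := by
        calc (2:ℝ) ^ (5/3 : ℝ) ≤ (2:ℝ) ^ (2 : ℝ) :=
              Real.rpow_le_rpow_of_exponent_le (by norm_num) (by norm_num)
          _ = 4 := by norm_num
      have h3 : (29/30 : ℝ) * (5/3) = 29/18 := by norm_num
      rw [h3]
      gcongr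
    have hfin : 2 * CB * C3 * T * N * L / Real.log z ^ (5/3 : ℝ) ≤
        8 * CB * C3 * N / L ^ (1/20 : ℝ) := by
      have h0 : 0 < Real.log z ^ (5/3 : ℝ) := Real.rpow_pos_of_pos hlogz_pos _
      have h1 : 0 < L ^ (29/18 : ℝ) := Real.rpow_pos_of_pos hL0 _
      calc 2 * CB * C3 * T * N * L / Real.log z ^ (5/3 : ℝ)
          ≤ 2 * CB * C3 * L ^ (56/100 : ℝ) * N * L / (L ^ (29/18 : ℝ) / 4) := by gcongr
        _ = 8 * CB * C3 * N * (L ^ (56/100 : ℝ) * L / L ^ (29/18 : ℝ)) := by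
            field_simp; ring
        _ ≤ 8 * CB * C3 * N * (1 / L ^ (1/20 : ℝ)) := by
            have h2 : L ^ (56/100 : ℝ) * L / L ^ (29/18 : ℝ) ≤ 1 / L ^ (1/20 : ℝ) := by
              rw [div_le_div_iff₀ h1 hLd, one_mul]
              calc L ^ (56/100 : ℝ) * L * L ^ (1/20 : ℝ)
                  = L ^ (56/100 : ℝ) * L ^ (1:ℝ) * L ^ (1/20 : ℝ) := by rw [Real.rpow_one]
                _ = L ^ (56/100 + 1 + 1/20 : ℝ) := by
                    rw [← Real.rpow_add hL0, ← Real.rpow_add hL0]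
                _ ≤ L ^ (29/18 : ℝ) :=
                    Real.rpow_le_rpow_of_exponent_le hL1 (by norm_num)
            gcongr
        _ = 8 * CB * C3 * N / L ^ (1/20 : ℝ) := by ring
    have hres : (Sset.ncard : ℝ) ≤ Cbig * N / L ^ (1/20 : ℝ) := by
      calc (Sset.ncard : ℝ) ≤ A.ncard + P.card := hcard
        _ ≤ C4 * N / L ^ (1/20 : ℝ) + 8 * CB * C3 * N / L ^ (1/20 : ℝ) :=
            add_le_add hAcard (hPcard.trans hfin)
        _ = Cbig * N / L ^ (1/20 : ℝ) := by rw [hCbig]; ring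
    refine hres.trans ?_
    have h9 : 0 ≤ (1 + |Real.log N₀|) ^ (1/20 : ℝ) := by positivity
    gcongr
    linarith

end Pool.Agent.Work.MP_2738db_nt_C.helper35
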